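import Pool.Agent.helper59.BR.SpecH

/-! # Project BR (MP_baa4d7_al), block H, row HTO -/

set_option autoImplicit false

namespace Pool.Agent.BR

open Pool.Agent.helper58.DC Pool.Agent.DI Pool.Agent.GR Pool.Agent.OB Pool.Agent.DR Pool.Agent.FI Pool.Agent.FI3 Pool.Agent.FI4 Pool.Agent.LE

theorem HTO_czbot {G : Type} [Group G] : cz (⊥ : Subgroup G) = ⊤ := by
  refine top_unique fun g _ => ?_
  rw [Subgroup.mem_centralizer_iff]
  intro h hh
  have h1 : h = 1 := by simpa using hh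
  rw [h1, one_mul, mul_one]

theorem HTO_mem {G : Type} [Group G] {u k : G} (h : k ∈ Cz (⊤ : Subgroup G) u) : u * k = k * u := by
  unfold Cz at h
  rw [Subgroup.mem_inf, Subgroup.mem_centralizer_iff] at h
  exact h.2 u rfl

theorem HTO (hHOR : HOR_stmt) (hQFU4 : QFU4_stmt) : HTO_stmt := by
  intro p M hS G _ _ D x θ χ lo u hu u' hu' hT η hη η' hη'
  have hPE : ∀ v ∈ D, PEl p v := by
    intro v hv
    obtain ⟨k0, hk0⟩ := lo.rt.dfa.pgrp ⟨v, hv⟩
    have hk1 : v ^ p ^ k0 = 1 := by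
      have := congrArg (fun a : D => (a : G)) hk0
      simpa using this
    exact ⟨k0, hk1⟩
  refine hHOR p M hS G θ u u' (hPE u hu) (hPE u' hu') η hη.1 η' hη'.1 ?_
  intro g hg hSB
  have hQ := hQFU4 p M hS G D x θ χ lo ⊥ bot_le u hu g
  rw [HTO_czbot, hg] at hQ
  obtain ⟨k, hk, hkg⟩ := hQ trivial hu' η hη.1 hη.2.symm (hη'.2.symm.trans hSB.symm)
  have hkz : u' * k = k * u' := HTO_mem hk
  refine hT (k * g) hkg ?_
  calc k * g * u * (k * g)⁻¹ = k * (g * u * g⁻¹) * k⁻¹ := by group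
    _ = k * u' * k⁻¹ := by rw [hg]
    _ = u' := by rw [← hkz]; group

end Pool.Agent.BR
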