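import Pool.Agent.helper45.BR.Spec

/-!
# Project br: (MP_af9036_an), module MLN
-/

set_option autoImplicit false

open Complex Metric Set Filter Topology MeasureTheory MPS Pool.Agent.helper98.ILF
  Pool.Agent.helper16.Multibrot

noncomputable section

namespace BR

theorem MLN (hMBB : MBB_stmt) (hBAS : BAS_stmt) : MLN_stmt := by
  intro n N c z hn hc h4 j hj h0
  obtain ⟨hc2, hcr⟩ := (hMBB n c hn).1 hc
  have hprod := (hBAS n c hn (by linarith)).2.2.2.1 j z
  rw [hprod, Finset.prod_eq_zero_iff] at h0
  obtain ⟨i, hi, h1⟩ := h0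
  rw [Finset.mem_range] at hi
  have h2 : (fc n c)^[i] z = 0 := by
    unfold MPS.fd at h1
    rcases mul_eq_zero.1 h1 with h | h
    · exact absurd h (by exact_mod_cast (show n ≠ 0 by omega))
    · exact pow_eq_zero_iff (by omega) |>.1 h
  have h3 : (fc n c)^[N] z = (fc n c)^[N - i] 0 := by
    rw [← h2, ← Function.iterate_add_apply, Nat.sub_add_cancel (by omega)]
  rw [h3] at h4
  have := hcr (N - i)
  linarith

end BR
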